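import Pool.Agent.MP_1a6d78_lc.PN.Spec

/-! PROJECT PN, row TOPC: the answer is computable in small space. -/

namespace Pool.Agent.MP_1a6d78_lc.DS.PV

open Classical ED PR DD SC SD

namespace AnL

theorem bound {A c E q m D : ℕ} (h1 : 1 ≤ m) (hq : q ≤ c * m ^ 37)
    (hD : D ≤ 2 * m) : E * (A * m ^ 36 + q + 1) * (D + 1) ≤ E * (A + c + 1) * 3 * m ^ 38 := by
  have a1 : m ^ 36 ≤ m ^ 37 := Nat.pow_le_pow_right h1 (by norm_num)
  have a2 : 1 ≤ m ^ 37 := Nat.one_le_pow _ _ h1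
  have a3 : A * m ^ 36 + q + 1 ≤ (A + c + 1) * m ^ 37 := by
    have := Nat.mul_le_mul_left A a1
    rw [add_mul, add_mul, one_mul]
    omega
  calc E * (A * m ^ 36 + q + 1) * (D + 1) ≤ E * ((A + c + 1) * m ^ 37) * (3 * m) :=
        Nat.mul_le_mul (Nat.mul_le_mul_left E a3) (by omega)
    _ = E * (A + c + 1) * 3 * m ^ 38 := by ring

theorem two {κ : List Bool → ℕ} {a b : List Bool → ℕ} (h2 : ∀ x, 2 ≤ κ x)
    (ha : Cn κ fun x _ => a x) (hb : Cn κ fun x _ => b x) :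
    Cm κ fun x _ => [a x, b x] :=
  (kitOne κ).tab (n := fun _ => 2) (fun x _ i => if i = 0 then a x else b x) h2 (K.c 2)
    (K.ite (K.eq (K.v 0) (K.c 0)) ha hb)

theorem fp_le (G : Ge) (Λ : Pa) (Kl b : ℕ) (g : Orc) (L : List ℕ) : Fp G Λ Kl b g L ≤ 1 := by
  unfold Fp
  split_ifs <;> omega

theorem fin {κ : List Bool → ℕ} {J : ℕ} {k : List Bool → ℕ} (h2 : ∀ x, 2 ≤ κ x)
    (F : List Bool → Orc → List ℕ → ℕ)
    (hF : ∀ x, Fp (gy J x) (pa J x) (Kz J x) (bz J x) = F x)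
    (hrc : Cn κ fun x ρ => rc (F x) (SD.Dx x) (GM.clip (k x) (bz J x) (ρ 0))) :
    Cn κ fun x _ => an J x (k x) := by
  have cn : ∀ i, Cn κ fun x _ => num x i := fun i => K.app (pi1.num κ) (K.c i)
  have cv : Cn κ fun x _ => min (num x 0) ((inp x).nd (num x 1)) :=
    K.min (cn 0) (K.app (pi1.nd κ) (cn 1))
  have c4 : Cn κ fun x _ => num x 3 / 4 := K.div (cn 3) (K.c 4)
  have c5 : Cn κ fun x _ => num x 3 / 4 - 1 := K.sub c4 (K.c 1)
  have c6 := two h2 cv c5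
  have hd1 : Cn κ fun x _ => rc (F x) (SD.Dx x) (GM.clip (k x) (bz J x)
        [min (num x 0) ((inp x).nd (num x 1)), num x 3 / 4 - 1]) :=
    (kitA κ).bind _ _ c6 hrc
  have hw : Cn κ fun x _ => wt x (min (num x 0) ((inp x).nd (num x 1))) :=
    K.app (pi1.wt κ) cv
  have hP := K.and (K.le (K.c 1) c4)
    (K.not (RgCL.iffC (K.le (K.c 3) hw) (K.ne hd1 (K.c 0))))
  refine K.cg hP fun x _ => ?_
  unfold an
  rw [hF x]
  split_ifs <;> rfl

end AnL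

theorem anS : AnS := by
  rintro hN hZ J ⟨A, hA⟩
  obtain ⟨⟨c, hc⟩, e, he⟩ := hN J
  obtain ⟨-, hm, -⟩ := nuS J
  obtain ⟨F, hF⟩ : ∃ F : List Bool → Orc → List ℕ → ℕ,
      ∀ x, Fp (gy J x) (pa J x) (Kz J x) (bz J x) = F x := ⟨_, fun _ => rfl⟩
  obtain ⟨k, hk⟩ : ∃ k : List Bool → ℕ, ∀ x, k x = A * mx x ^ 36 + qz J x := ⟨_, fun _ => rfl⟩
  have k5 : ∀ x, 5 ≤ k x := fun x => by
    rw [hk]
    unfold qz Kz
    omega
  have hq : Nq k (qz J) (bz J) fun x g ρ => F x g (ρ 0) := by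
    have := hA k (fun x => by rw [hk]; exact Nat.le_add_right _ _)
      fun x => by rw [hk]; exact Nat.le_add_left _ _
    simp only [hF] at this
    exact this
  obtain ⟨E, hE⟩ := GM.recC k (qz J) (bz J) SD.Dx F e hq
    (fun x g l => by
      rw [← hF]
      exact (AnL.fp_le _ _ _ _ _ _).trans (Nat.le_add_left _ _))
    (fun x => by have := k5 x; omega) he
  refine ⟨k, k5, E * (A + c + 1) * 3 + 5, fun κ hκ => ?_⟩
  have m1 : ∀ x, 1 ≤ mx x := fun x => by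
    unfold mx
    omega
  have hκ' : ∀ x, E * (A + c + 1) * 3 * mx x ^ 38 + 5 * mx x ^ 38 ≤ κ x := fun x => by
    rw [← add_mul]
    exact hκ x
  have h2 : ∀ x, 2 ≤ κ x := fun x => by
    have := hκ' x
    have := Nat.one_le_pow 38 _ (m1 x)
    omega
  obtain ⟨-, -, -, -, -, -, cD⟩ := kt1.pi J κ
  obtain ⟨-, cb, cq⟩ := hZ J κ
  have ck : Cn κ fun x _ => k x :=
    K.cg (K.add (K.mul (K.c A) (K.pow 36 (kt1.mx κ))) cq) fun x _ => (hk x).symm
  exact AnL.fin h2 F hF (hE κ (fun x => by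
    rw [hk]
    exact (AnL.bound (m1 x) (hc x) (hm x).2).trans
      ((Nat.le_add_right _ _).trans (hκ' x))) cD ck cb)

end Pool.Agent.MP_1a6d78_lc.DS.PV
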