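import Pool.Agent.MP_1a6d78_lc.PN.Spec

/-! Row CONE: below the threshold every wire joins two darts of the tree of short walks. -/

namespace Pool.Agent.MP_1a6d78_lc.DS.PV

open Classical ED PR DD SC SD

namespace CnL

theorem tree {M : Mp} {us : ℕ → Prop} {w : ℕ → ℕ} {s θ : ℕ} {D : ℕ → ℕ} (hs : s < M.n)
    (h : DsK M us w s θ D) (ok : M.Ok) (m : ℕ) :
    ∀ t < M.n, D (M.nd t) = m → m ≤ θ → (bfs M θ D).C M t s := by
  induction m using Nat.strong_induction_on with
  | _ m ih =>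
    intro t ht e hm
    rcases h.par t ht (e ▸ hm) with k | k
    · exact Sc.conn' _ ok.pm ht ((Mp.nd_iff ok.pm ht hs).1 k)
    · obtain ⟨p1, p2, p3⟩ : par M D (M.nd t) < M.n ∧ M.nd (M.β (par M D (M.nd t))) = M.nd t ∧
          D (M.nd (par M D (M.nd t))) < D (M.nd t) := lst_spec k
      have hP : isP M θ D (par M D (M.nd t)) := by
        refine ⟨p1, ?_, ?_, ?_⟩
        · rw [p2, e]; exact hm
        · rw [p2]; exact p3
        · rw [p2]
      have ht' : (bfs M θ D).tau M (par M D (M.nd t)) = M.β (par M D (M.nd t)) :=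
        if_pos (show (bfs M θ D).tr _ from ⟨p1, Or.inl hP⟩)
      have c1 : (bfs M θ D).C M t (M.β (par M D (M.nd t))) :=
        Sc.conn' _ ok.pm ht ((Mp.nd_iff ok.pm ht (ok.iv _ p1).1).1 p2.symm)
      have c2 : (bfs M θ D).C M (par M D (M.nd t)) (M.β (par M D (M.nd t))) :=
        ht' ▸ Conn.gam M.ρ ((bfs M θ D).tau M) p1
      have c3 := ih _ (e ▸ p3) _ p1 rfl (by omega)
      exact Conn.trans c1 (Conn.trans (Conn.symm c2) c3)

end CnL

theorem cnS : CnS := by
  intro M us w s θ D hs h sh hw k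
  induction k with
  | zero => exact fun _ _ _ => Iff.rfl
  | succ k ih =>
    intro t ht hD
    have key : ∀ d < M.n, us d → M.nd d = M.nd t →
        (geo M us w ((bfs M θ D).tau M)).ar d ∧
        (eV M.n M.nd M.β w (geo M us w ((bfs M θ D).tau M)).ar k (M.nd (M.β d)) ↔
          eV M.n M.nd M.β w us k (M.nd (M.β d))) := by
      intro d hd hu e
      have h1 := hw d hd hu
      have h2 := h.step d hd hu (by rw [e]; omega)
      rw [e] at h2
      have hb := (sh.ok.iv d hd).1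
      refine ⟨⟨hu, ((ndS _ _ sh).cs d hd _ hb).1 ?_⟩, ih _ hb (by omega)⟩
      exact Conn.trans (CnL.tree hs h sh.ok _ d hd rfl (by rw [e]; omega))
        (Conn.symm (CnL.tree hs h sh.ok _ _ hb rfl (by omega)))
    refine not_congr (iff_congr Iff.rfl ⟨?_, ?_⟩)
    · rintro ⟨d, hd, ha, e, hv⟩
      exact ⟨d, hd, ha.1, e, (key d hd ha.1 e).2.symm.trans hv⟩
    · rintro ⟨d, hd, ha, e, hv⟩
      exact ⟨d, hd, (key d hd ha e).1, e, (key d hd ha e).2.trans hv⟩

end Pool.Agent.MP_1a6d78_lc.DS.PV
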