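import Mathlib
import Pool.Agent.MP_1a6d78_lc.DS.Defs

/-! Boolean networks drawn in the plane: the value of a gate after `k` rounds. -/

namespace Pool.Agent.MP_1a6d78_lc.PN

/-- The gates are the cycles of `σ`; a dart `b` with `dir b` is a wire that feeds the gate at
`α b` into the gate at `b`, negated if `neg b`; the gate at `a` is AND if `ty a`, else OR.
`ev k a` is the value of the gate at `a` after `k` rounds from the value false everywhere. -/
def ev {n : ℕ} (σ α : Equiv.Perm (Fin n)) (dir ty neg : Fin n → Bool) : ℕ → Fin n → Prop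
  | 0, _ => False
  | k + 1, a =>
    if ty a = true then
      ∀ b, σ.SameCycle a b → dir b = true → (ev σ α dir ty neg k (α b) ↔ neg b = false)
    else ∃ b, σ.SameCycle a b ∧ dir b = true ∧ (ev σ α dir ty neg k (α b) ↔ neg b = false)

/-- The code: `n, s, s, 4 d` and the tables of `σ`, `α`, `1 + neg + 2 ty`, `dir`, in unary. -/
def code {n : ℕ} (σ α : Equiv.Perm (Fin n)) (dir ty neg : Fin n → Bool) (s : Fin n) (d : ℕ) :
    List Bool :=
  DS.code σ α dir (fun a => 1 + (neg a).toNat + 2 * (ty a).toNat) s s (4 * d)

end Pool.Agent.MP_1a6d78_lc.PN
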