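import Pool.Agent.MP_1a6d78_lc.PN.Spec

/-! PROJECT PN, row DEEP: the tree of short walks has small depth. -/

namespace Pool.Agent.MP_1a6d78_lc.DS.PV

open Classical ED PR DD SC SD

noncomputable section

namespace DqL

variable (M : Mp) (θ : ℕ) (D : ℕ → ℕ)

/-- The node has a father. -/
def Up (v : ℕ) : Prop := isP M θ D (par M D v) ∧ M.nd (M.β (par M D v)) = v

/-- The father. -/
def up (v : ℕ) : ℕ := if Up M θ D v then M.nd (par M D v) else v

variable {M θ D}

theorem drop {v : ℕ} (h : Up M θ D v) : D v ≤ θ ∧ D (up M θ D v) < D v := by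
  have a := h.1.2.1
  have b := h.1.2.2.1
  rw [h.2] at a b
  exact ⟨a, by rw [up, if_pos h]; exact b⟩

theorem stab (m : ℕ) : ∀ v, (Up M θ D v → D v ≤ m) →
    (up M θ D)^[m] (up M θ D v) = (up M θ D)^[m] v := by
  induction m with
  | zero =>
    intro v h
    exact if_neg fun k => by have := h k; have := (drop k).2; omega
  | succ m ih =>
    intro v h
    rw [Function.iterate_succ_apply, Function.iterate_succ_apply]
    refine ih _ fun k => ?_
    by_cases c : Up M θ D v
    · have := h c; have := (drop c).2; omega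
    · rw [up, if_neg c] at k
      exact absurd k c

theorem step {a : ℕ} (h : isP M θ D a) :
    (up M θ D)^[θ] (M.nd (M.β a)) = (up M θ D)^[θ] (M.nd a) := by
  have u : Up M θ D (M.nd (M.β a)) := by
    unfold Up
    rw [h.2.2.2]
    exact ⟨h, rfl⟩
  rw [← stab θ _ fun k => (drop k).1, up, if_pos u, h.2.2.2]

theorem walk (ok : M.Ok) (m : ℕ) : ∀ d < M.n,
    Tw M.n M.ρ ((bfs M θ D).tau M) d ((up M θ D)^[m] (M.nd d)) m := by
  induction m with
  | zero => exact fun d hd => twK.sc ok.pm hd (Mp.nd_spec hd).2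
  | succ m ih =>
    intro d hd
    rw [Function.iterate_succ_apply]
    by_cases c : Up M θ D (M.nd d)
    · rw [up, if_pos c]
      obtain ⟨a, ha⟩ : ∃ a, a = par M D (M.nd d) := ⟨_, rfl⟩
      obtain ⟨c1, c2⟩ := c
      rw [← ha] at c1 c2 ⊢
      have k := ok.iv a c1.1
      have e : (bfs M θ D).tau M (M.β a) = a :=
        (if_pos ⟨k.1, Or.inr (by rw [k.2]; exact c1)⟩).trans k.2
      have t := Tw.edge (twK.sc (τ := (bfs M θ D).tau M) ok.pm hd
        ((Mp.nd_iff ok.pm hd k.1).1 c2.symm)) k.1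
      rw [e] at t
      exact twK.mono (twK.trans t (ih a c1.1)) (by omega)
    · rw [up, if_neg c]
      exact twK.mono (ih d hd) (by omega)

end DqL

theorem dqS : DqS := by
  intro M θ D ok
  refine ⟨fun d => Nat.zero_le _, fun d => (DqL.up M θ D)^[θ] (M.nd d), fun d hd =>
    ⟨?_, ?_, ?_, fun h => h.elim⟩⟩
  · beta_reduce
    rw [← (Mp.nd_iff ok.pm hd (ok.pm.1 d hd)).2 (Sc.step ok.pm.1 hd)]
  · beta_reduce
    unfold St.tau
    split_ifs with h
    · rcases h.2 with k | k
      · exact DqL.step k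
      · rw [← DqL.step k, (ok.iv d hd).2]
    · rfl
  · rw [one_mul]
    exact DqL.walk ok θ d hd

end

end Pool.Agent.MP_1a6d78_lc.DS.PV
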