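import Pool.Agent.MP_1a6d78_lc.PN.Spec

/-! Row DS of project PN: an exact distance function has the three local properties. -/

namespace Pool.Agent.MP_1a6d78_lc.DS.PV

open Classical ED PR DD SC SD

namespace DsL

theorem back {M : Mp} {us : ℕ → Prop} {w : ℕ → ℕ} {s : ℕ} (hM : M.Ok) (hs : s < M.n)
    (hw : ∀ d < M.n, us d → 1 ≤ w d) {t c : ℕ} (h : Dw M us w s t c) :
    t < M.n ∧ (M.nd t = M.nd s ∨
      ∃ a < M.n, ∃ c2 < c, M.nd (M.β a) = M.nd t ∧ Dw M us w s a c2) := by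
  induction h with
  | nil => exact ⟨hs, Or.inl rfl⟩
  | @rot a c _ ih =>
    obtain ⟨ha, ih⟩ := ih
    have hr : M.ρ a < M.n := hM.pm.1 a ha
    have e : M.nd a = M.nd (M.ρ a) := (Mp.nd_iff hM.pm ha hr).2 (Sc.step hM.pm.1 ha)
    refine ⟨hr, ?_⟩
    rw [← e]
    exact ih
  | @edge a c h hu ih =>
    have ha := ih.1
    have h1 := hw a ha hu
    exact ⟨(hM.iv a ha).1, Or.inr ⟨a, ha, c, by omega, rfl, h⟩⟩

end DsL

theorem dsS : DsS := by
  intro M us w s θ D hM hs hw hE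
  refine ⟨?_, ?_, ?_⟩
  · exact Nat.le_zero.1 ((hE s hs).2 0 (Nat.zero_le _) Dw.nil)
  · intro d hd hu hθ
    exact (hE _ (hM.iv d hd).1).2 _ hθ (Dw.edge ((hE d hd).1 (by omega)) hu)
  · intro t ht hθ
    rcases (DsL.back hM hs hw ((hE t ht).1 hθ)).2 with h | ⟨a, ha, c, hc, e, h⟩
    · exact Or.inl h
    · exact Or.inr ⟨a, ha, e, lt_of_le_of_lt ((hE a ha).2 c (by omega) h) hc⟩

end Pool.Agent.MP_1a6d78_lc.DS.PV
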