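import Pool.Agent.MP_1a6d78_lc.PN.Spec

/-! PROJECT PN, row EXACT: the minimum over the coins is the distance below the threshold. -/

namespace Pool.Agent.MP_1a6d78_lc.DS.PV

open Classical ED PR DD SC SD

namespace ExL

theorem hgx (K : ℕ) (x : List Bool) (hM : (inp x).Ok) (p : ℕ) (hp : p < bt K x) :
    gx K x p = geo (inp x) (us x) (wt x)
      ((run (inp x) (rr x) (cyy (K * lg x) p) (cjj p) (K * lg x)).tau (inp x)) := by
  unfold gx
  rw [min_eq_right hp.le, enS runA ndS K x p hM]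

theorem half (K : ℕ) (x : List Bool) (hM : (inp x).Ok) (hw : posW x) (t : ℕ) (ht : t < num x 0)
    (p : ℕ) (hp : p < bt K x) :
    (dv K x p ((inp x).nd t) ≤ num x 3 →
      Wu (inp x).n (inp x).nd (inp x).β (wt x) ((gx K x p).arc (pa K x) 0 0)
        ((inp x).nd (num x 1)) ((inp x).nd t) (dv K x p ((inp x).nd t))) ∧
    ∀ c ≤ num x 3, Wu (inp x).n (inp x).nd (inp x).β (wt x) ((gx K x p).arc (pa K x) 0 0)
      ((inp x).nd (num x 1)) ((inp x).nd t) c → dv K x p ((inp x).nd t) ≤ c := by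
  have hs : num x 1 < num x 0 := hM.s
  have e1 : min (num x 0) ((inp x).nd (num x 1)) = (inp x).nd (num x 1) :=
    min_eq_right (Mp.nd_spec (M := inp x) hs).1.le
  have e2 : min (num x 0) ((inp x).nd t) = (inp x).nd t :=
    min_eq_right (Mp.nd_spec (M := inp x) ht).1.le
  obtain ⟨r1, r2⟩ := runA (inp x) (rr x) (cyy (K * lg x) p) (cjj p) (K * lg x) hM
  have hG : (gx K x p).Ok (2 * (K * lg x * rr x)) := by
    rw [hgx K x hM p hp]
    exact geS twK ctS cuS _ _ _ _ _ _ r1 (ndS _ _ r1) r2 hw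
  have := rcS bfK dcK spS szS rgS (gx K x p) (pa K x) _ hG (TpL.pa_ok K x) (SD.Dx x) 0 0
    (by norm_num) (Nat.add_pos_right _ (Nat.succ_pos _)) (TpL.depth K x)
    ((inp x).nd (num x 1)) ((inp x).nd t)
  unfold dv
  rw [e1, e2]
  exact this

end ExL

open ExL in
theorem exS : ExS := by
  intro K x hK hM hw t ht
  have hs : num x 1 < num x 0 := hM.s
  constructor
  · intro h
    rcases mn_eq (bt K x) (fun _ => True) (fun p => dv K x p ((inp x).nd t)) (num x 3 + 1) with
      e | ⟨p, hp, -, e⟩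
    · have e' : Dd K x ((inp x).nd t) = num x 3 + 1 := e
      omega
    · have e' : Dd K x ((inp x).nd t) = dv K x p ((inp x).nd t) := e
      rw [e'] at h ⊢
      exact (ptS (inp x) (us x) (wt x) _ _ _ hM hs ht).1 _ (fun d _ k => k.1.1)
        ((half K x hM hw t ht p hp).1 h)
  · intro c hc hD
    obtain ⟨F, f1, f2, f3⟩ := (ptS (inp x) (us x) (wt x) _ _ c hM hs ht).2 hw hD
    have hT : 1 ≤ K * lg x := Nat.mul_pos (by omega) (Nat.succ_pos _)
    obtain ⟨cy, cj, g1, g2, g3⟩ := gdS runA ndS slS klS keyS (inp x) (num x 3 + 1) (K * lg x) F hM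
      (by omega) hT (by omega) f2
    obtain ⟨p, hp, hp'⟩ := coS.1 _ cy cj g1 g2
    have hpb : p < bt K x := hp.trans_le (TpL.coin_le K x)
    have g4 := g3 (endS runA ndS slS gnS (inp x) _ cy cj K (lg x) hM hK (TpL.n_lt x))
    rw [← coS.2.2 (inp x) _ _ _ cy cj _ hp'] at g4
    have nk := ndS _ _ (runA (inp x) (rr x) (cyy (K * lg x) p) (cjj p) (K * lg x) hM).1
    have hWu := f3 ((gx K x p).arc (pa K x) 0 0) fun e he hu => by
      refine ⟨?_, (rgS _ _).zero 0 e⟩
      rw [hgx K x hM p hpb]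
      exact ⟨hu, (nk.cs e (f2 e he) _ (hM.iv e (f2 e he)).1).1 (g4 e he)⟩
    exact (mn_le (P := fun _ => True) (c := fun p => dv K x p ((inp x).nd t)) hpb trivial).trans
      ((half K x hM hw t ht p hpb).2 c hc hWu)

end Pool.Agent.MP_1a6d78_lc.DS.PV
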