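import Pool.Agent.MP_1a6d78_lc.PN.Spec

/-! PROJECT PN, row FILL: the stack of true facts is filled correctly. -/

namespace Pool.Agent.MP_1a6d78_lc.DS.PV

open Classical ED PR DD SC SD

namespace FlL

theorem has_upd {θ Kl m c : ℕ} (S : List ℕ) (h : 5 + m < Kl) (y i : ℕ) :
    has θ (El.upd Kl S (5 + m) c) (m + 1) y i ↔ has θ S m y i ∨ c = cd θ y i := by
  constructor
  · rintro ⟨a, h1, h2⟩
    rw [El.gt_upd _ _ _ (by omega)] at h2
    split_ifs at h2 with h3
    · exact Or.inr h2
    · exact Or.inl ⟨a, by omega, h2⟩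
  · rintro (⟨a, h1, h2⟩ | h2)
    · exact ⟨a, by omega, by rw [El.gt_upd _ _ _ (by omega), if_neg (by omega), h2]⟩
    · exact ⟨m, by omega, by rw [El.gt_upd _ _ _ h, if_pos rfl, h2]⟩

theorem cd_inj {θ u j y i : ℕ} (hj : j ≤ θ) (hi : i ≤ θ) (h : cd θ u j = cd θ y i) :
    u = y ∧ j = i := by
  have e : u * (θ + 1) + j = y * (θ + 1) + i := Nat.add_left_cancel h
  have a := congrArg (· % (θ + 1)) e
  simp only [Nat.mul_add_mod'] at a
  rw [Nat.mod_eq_of_lt (by omega), Nat.mod_eq_of_lt (by omega)] at a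
  subst a
  exact ⟨Nat.eq_of_mul_eq_mul_right θ.succ_pos (Nat.add_right_cancel e), rfl⟩

theorem lt_of {i j c N t : ℕ} (h : i < j) (hc : c < N) (ht : N * j ≤ t) : i * N + c < t := by
  have := Nat.mul_le_mul_left N (Nat.succ_le_of_lt h)
  rw [Nat.mul_succ, Nat.mul_comm] at this
  omega

end FlL

open FlL in
theorem flS : FlS := by
  intro n N θ Kl B I T ch e H L o v k hB hN hk hv hK e0 es sL hc
  have cl : ∀ y < n, B y → cnt y B < N := fun y a b => (sel_cnt a b).2.trans_le hB
  have inv : ∀ t ≤ N * (k + 1),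
      (∀ y i, has θ L o y i → has θ (fill n N θ Kl B I T ch L o t) (o + t) y i) ∧
      Snd n θ e (fill n N θ Kl B I T ch L o t) (o + t) ∧
      ∀ y < n, B y → I y → ∀ i, e i y → i * N + cnt y B < t →
        has θ (fill n N θ Kl B I T ch L o t) (o + t) y i := by
    intro t
    induction t with
    | zero => exact fun _ => ⟨fun _ _ h => h, sL, fun _ _ _ _ _ _ h => absurd h (Nat.not_lt_zero _)⟩
    | succ t ih =>
      intro ht
      obtain ⟨a, b, c⟩ := ih (by omega)
      have jk : t / N ≤ k := Nat.lt_succ_iff.1 (Nat.div_lt_of_lt_mul ht)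
      have key : (I (sel n B (t % N)) ∧ 1 ≤ t / N ∧ ¬(T (sel n B (t % N)) ↔
          ch (fill n N θ Kl B I T ch L o t) (o + t) (sel n B (t % N)) (t / N - 1))) ↔
          I (sel n B (t % N)) ∧ e (t / N) (sel n B (t % N)) := by
        refine and_congr_right fun hI => ?_
        have d := Nat.mul_div_le t N
        cases hj : t / N with
        | zero => exact iff_of_false (fun h => absurd h.1 (by omega)) (e0 _)
        | succ j =>
          rw [hj] at d jk
          rw [es _ j hI, Nat.add_sub_cancel, hc _ _ _ j (sel_le _ _ _) (by omega) (by omega) b a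
            fun y y1 y2 y3 i hi he => c y y1 y2 y3 i he (lt_of (by omega) (cl y y1 y2) d)]
          exact and_iff_right (by omega)
      have st : ∀ y i, has θ (fill n N θ Kl B I T ch L o (t + 1)) (o + (t + 1)) y i ↔
          has θ (fill n N θ Kl B I T ch L o t) (o + t) y i ∨
          (if I (sel n B (t % N)) ∧ e (t / N) (sel n B (t % N))
            then cd θ (sel n B (t % N)) (t / N) else 0) = cd θ y i := fun y i => by
        rw [← if_congr key rfl rfl]
        exact has_upd _ (by omega) y i
      refine ⟨fun y i h => (st y i).2 (Or.inl (a y i h)), fun y hy i hi h => ?_,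
        fun y y1 y2 y3 i he h => (st y i).2 ?_⟩
      · rcases (st y i).1 h with h | h
        · exact b y hy i hi h
        · split_ifs at h with h1
          · obtain ⟨rfl, rfl⟩ := cd_inj (jk.trans hk) hi h
            exact h1.2
          · unfold cd at h
            omega
      · rcases Nat.lt_succ_iff_lt_or_eq.1 h with h | h
        · exact Or.inl (c y y1 y2 y3 i he h)
        · have l := cl y y1 y2
          have h1 : t % N = cnt y B := by rw [← h, Nat.mul_add_mod', Nat.mod_eq_of_lt l]
          have h2 : t / N = i := by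
            rw [← h, Nat.add_comm, Nat.add_mul_div_right _ _ hN, Nat.div_eq_of_lt l, Nat.zero_add]
          rw [h1, h2, (sel_cnt y1 y2).1, if_pos ⟨y3, he⟩]
          exact Or.inr rfl
  obtain ⟨a, b, c⟩ := inv _ le_rfl
  exact hc _ _ v k hv le_rfl le_rfl b a fun y y1 y2 y3 i hi he =>
    c y y1 y2 y3 i he (lt_of (Nat.lt_succ_of_le hi) (cl y y1 y2) le_rfl)

end Pool.Agent.MP_1a6d78_lc.DS.PV
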