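import Pool.Agent.MP_1a6d78_lc.PN.Spec

/-! PROJECT PN, row FRAMEQ: one frame of the recursion is a function of the calculus with calls. -/

namespace Pool.Agent.MP_1a6d78_lc.DS.PV

open Classical ED PR DD SC SD

namespace FpL

theorem fit (K : ℕ) (x : List Bool) (k : ℕ) :
    (pa K x).N * (min (pa K x).θ k + 1) ≤ qz K x := by
  have h1 : (pa K x).N * (min (pa K x).θ k + 1) ≤ (pa K x).N * ((pa K x).θ + 1) :=
    Nat.mul_le_mul_left _ (Nat.succ_le_succ (min_le_left _ _))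
  have h2 : (pa K x).N * ((pa K x).θ + 1) ≤ SD.Dx x * ((pa K x).N * ((pa K x).θ + 1)) :=
    Nat.le_mul_of_pos_left _ (Nat.succ_pos _)
  unfold qz Kz
  omega

theorem pack_le (Kl b : ℕ) (S : List ℕ) (u j o l a : ℕ) : ∀ y ∈ pack Kl b S u j o l a, y ≤ b := by
  intro y hy
  obtain ⟨e, -, rfl⟩ := List.mem_map.1 hy
  exact min_le_left _ _

end FpL

open FpL FqL in
theorem fpS : FpS := by
  intro fc zc K κ G hκ hG pc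
  obtain ⟨pi, pW, pL, pN, pθ, -, -⟩ := kt1.pi K κ
  obtain ⟨zK, zb, -⟩ := zc K κ
  have hKz : ∀ x, Kz K x ≤ κ x ∧ Kz K x ≤ qz K x := fun x => by
    have := hκ x
    unfold qz at *
    omega
  have hW : ∀ x, (pa K x).W ≤ qz K x := fun x => by
    unfold qz qx
    omega
  have hR := rgCS kt1 K κ (fun x _ => G x) (fun x => by
    have := hκ x
    unfold qz qx at this
    omega) hG
  have hn : Cn κ fun x _ => (G x).n := RgCL.nC hG (PR.K.c 0)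
  have he : ∀ j, Cn κ fun x ρ => min (bz K x) (2 ^ gt (ρ j) 3) := fun j =>
    kt1.p2 κ _ _ zb (ej j 3)
  have hI : P1 κ fun x ρ => Inn (G x) (pa K x) (gt (ρ 0) 4) (gt (ρ 0) 3) :=
    pc.inn _ _ _ (ej 1 4) (ej 1 3) (PR.K.v 0)
  have hT : P1 κ fun x (_ : Env) v => 3 ≤ (G x).w v :=
    PR.K.le (PR.K.c 3) (hG.w _ _ (PR.K.c 0) (PR.K.v 0))
  have hk : Cn κ fun x ρ => min (pa K x).θ (gt (ρ 0) 1) := PR.K.min pθ (ej 0 1)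
  have b0 := fc κ (qz K) (bz K) (fun x => (G x).n) (fun x => (pa K x).N) (fun x => (pa K x).θ)
    (Kz K) (fun x ρ => B2 (G x) (pa K x) (gt (ρ 0) 4) (gt (ρ 0) 3))
    (fun x ρ => Inn (G x) (pa K x) (gt (ρ 0) 4) (gt (ρ 0) 3)) (fun x _ v => 3 ≤ (G x).w v)
    (fun x _ ρ => ch0 (G x) (pa K x) (gt (ρ 0) 4) (gt (ρ 0) 3)) (fun _ ρ => ρ 0)
    (fun _ ρ => gt (ρ 0) 2) (fun _ ρ => gt (ρ 0) 0) (fun x ρ => min (pa K x).θ (gt (ρ 0) 1))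
    hKz (fun x _ => fit K x _) hn pN pθ zK
    (pc.b2 _ _ _ (ej 1 4) (ej 1 3) (PR.K.v 0)) hI hT
    (Q.liftP (pc.ch _ _ _ _ _ _ (ej 4 4) (ej 4 3) (PR.K.vL 3) (PR.K.v 2) (PR.K.v 1) (PR.K.v 0)))
    (PR.K.vL 0) (ej 0 2) (ej 0 0) hk
  have b1 := fc κ (qz K) (bz K) (fun x => (G x).n) (fun x => (pa K x).N) (fun x => (pa K x).θ)
    (Kz K) (fun x ρ => (G x).B1 (pa K x) (gt (ρ 0) 4) (gt (ρ 0) 3)
      (min (bz K x) (2 ^ gt (ρ 0) 3)))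
    (fun x ρ => Inn (G x) (pa K x) (gt (ρ 0) 4) (gt (ρ 0) 3)) (fun x _ v => 3 ≤ (G x).w v)
    (fun x g ρ => ch1 (pa K x) (Kz K x) (bz K x) g (gt (ρ 0) 4) (gt (ρ 0) 3)
      (min (bz K x) (2 ^ gt (ρ 0) 3))) (fun _ ρ => ρ 0)
    (fun _ ρ => gt (ρ 0) 2) (fun _ ρ => gt (ρ 0) 0) (fun x ρ => min (pa K x).θ (gt (ρ 0) 1))
    hKz (fun x _ => fit K x _) hn pN pθ zK
    (hR.B1 _ _ _ _ _ (PR.K.c 0) (ej 1 4) (ej 1 3) (he 1) (PR.K.v 0)) hI hT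
    (Q.ex (P := fun x g ρ w => g (pack (Kz K x) (bz K x) (ρ 3) (hd (ρ 1)) (hd (ρ 0)) (hd (ρ 2))
        (gt (ρ 4) 3 + (pa K x).i) (gt (ρ 4) 4 + w * min (bz K x) (2 ^ gt (ρ 4) 3))) ≠ 0)
      (Q.lift pW) (fun x _ _ => hW x)
      (Q.ne (Q.call (Q.liftL (pc.pk _ _ _ _ _ _ (PR.K.vL 4) (PR.K.v 2) (PR.K.v 1) (PR.K.v 3)
        (PR.K.add (ej 5 3) pi) (PR.K.add (ej 5 4) (PR.K.mul (PR.K.v 0) (he 5)))))
        fun _ _ _ => pack_le _ _ _ _ _ _ _ _) (Q.c 0)))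
    (PR.K.vL 0) (ej 0 2) (ej 0 0) hk
  exact Q.ite (Q.liftP (PR.K.le pL (ej 0 3))) b0 b1

end Pool.Agent.MP_1a6d78_lc.DS.PV
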