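import Pool.Agent.MP_1a6d78_lc.PN.Spec

/-! PROJECT PN, row TREEC: the line of the tree of short walks is computable. -/

namespace Pool.Agent.MP_1a6d78_lc.DS.PV

open Classical ED PR DD SC SD

namespace GyL

variable {κ : List Bool → ℕ} {M : List Bool → Mp} {θ : List Bool → ℕ} {D : List Bool → ℕ → ℕ}

theorem parC (hM : Mp.C κ M) (hnd : F1 κ fun x _ => (M x).nd) (hD : F1 κ fun x _ => D x)
    {v : List Bool → Env → ℕ} (hv : Cn κ v) : Cn κ fun x ρ => par (M x) (D x) (v x ρ) :=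
  PR.K.lst (P := fun x ρ a => (M x).nd ((M x).β a) = v x ρ ∧ D x ((M x).nd a) < D x (v x ρ)) hM.1
    (PR.K.and (PR.K.eq (PR.K.app hnd (PR.K.app hM.2.2.1 (PR.K.v 0))) (PR.K.w hv))
      (PR.K.lt (PR.K.app hD (PR.K.app hnd (PR.K.v 0))) (PR.K.app hD (PR.K.w hv))))

theorem isPC (hM : Mp.C κ M) (hnd : F1 κ fun x _ => (M x).nd) (hD : F1 κ fun x _ => D x)
    (hθ : Cn κ fun x _ => θ x) {a : List Bool → Env → ℕ} (ha : Cn κ a) :
    Cp κ fun x ρ => isP (M x) (θ x) (D x) (a x ρ) :=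
  have hb := PR.K.app hnd (PR.K.app hM.2.2.1 ha)
  PR.K.and (PR.K.lt ha hM.1) (PR.K.and (PR.K.le (PR.K.app hD hb) hθ)
    (PR.K.and (PR.K.lt (PR.K.app hD (PR.K.app hnd ha)) (PR.K.app hD hb))
      (PR.K.eq (parC hM hnd hD hb) ha)))

theorem tauC (hM : Mp.C κ M) (hnd : F1 κ fun x _ => (M x).nd) (hD : F1 κ fun x _ => D x)
    (hθ : Cn κ fun x _ => θ x) : F2 κ fun x _ => (bfs (M x) (θ x) (D x)).tau (M x) :=
  fun _ _ _ hb => PR.K.ite (PR.K.and (PR.K.lt hb hM.1) (PR.K.or (isPC hM hnd hD hθ hb)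
    (isPC hM hnd hD hθ (PR.K.app hM.2.2.1 hb)))) (PR.K.app hM.2.2.1 hb) hb

end GyL

theorem gyS : GyS := fun K κ h =>
  GcL.geoC (τ := fun x _ => (bfs (inp x) (num x 3) (Dd K x)).tau (inp x))
    (pi1.M κ) (pi1.nd κ) (kt1.us κ) (pi1.wt κ)
    (GyL.tauC (θ := fun x => num x 3) (D := Dd K) (pi1.M κ) (pi1.nd κ) h
      (PR.K.app (pi1.num κ) (PR.K.c 3)))

end Pool.Agent.MP_1a6d78_lc.DS.PV
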