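import Pool.Agent.MP_1a6d78_lc.PN.Spec

/-! PROJECT PN, row NUM: the sizes. -/

namespace Pool.Agent.MP_1a6d78_lc.DS.PV

open Classical ED PR DD SC SD

namespace NzL

theorem n_le (K : ℕ) (x : List Bool) : (pa K x).N ≤ qx K x := by
  unfold qx
  omega

theorem cube (K : ℕ) (x : List Bool) : qz K x + 2 ≤ (qx K x + 2) ^ 3 := by
  have h1 := n_le K x
  have h2 : (pa K x).θ + 1 ≤ qx K x := by
    unfold qx
    omega
  have h3 : SD.Dx x ≤ qx K x := by
    have := Nat.div_le_self (2 * lg x) (Nat.log 2 (mx x) + 1)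
    have e : (pa K x).K = 2 * lg x + (Nat.log 2 (mx x) + 1) := rfl
    unfold qx SD.Dx
    omega
  have h4 := Nat.mul_le_mul h3 (Nat.mul_le_mul h1 h2)
  unfold qz Kz
  nlinarith [Nat.zero_le (qx K x), Nat.zero_le (qx K x ^ 2)]

end NzL

theorem nzS : NzS := by
  intro K
  obtain ⟨⟨c, hc⟩, h2, e, he⟩ := nuS K
  refine ⟨⟨3 * c + 5, fun x => ?_⟩, 3 * e + 4, fun x => ?_⟩
  · have h1 : 1 ≤ mx x := by
      unfold mx
      omega
    have h3 : (pa K x).θ + 1 ≤ mx x := by
      have e : (pa K x).θ = num x 3 := rfl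
      unfold mx
      omega
    have h4 := Nat.mul_le_mul (h2 x).2 (Nat.mul_le_mul ((NzL.n_le K x).trans (hc x)) h3)
    have h5 : c * mx x ^ 35 ≤ c * mx x ^ 37 :=
      Nat.mul_le_mul_left c (Nat.pow_le_pow_right h1 (by norm_num))
    have h6 : 1 ≤ mx x ^ 37 := Nat.one_le_pow _ _ h1
    have h7 : 2 * mx x * (c * mx x ^ 35 * mx x) = 2 * (c * mx x ^ 37) := by ring
    have h8 : (3 * c + 5) * mx x ^ 37 = 3 * (c * mx x ^ 37) + 5 * mx x ^ 37 := by ring
    have h9 := hc x
    unfold qz Kz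
    omega
  · obtain ⟨h1, -, h3⟩ := he x
    have h4 : (qz K x + 2) ^ SD.Dx x ≤ (x.length + 2) ^ (3 * e) := by
      refine (Nat.pow_le_pow_left (NzL.cube K x) _).trans ?_
      rw [← pow_mul, mul_comm, pow_mul, mul_comm 3 e, pow_mul]
      exact Nat.pow_le_pow_left h3 3
    have h5 : qz K x + 2 ≤ (qz K x + 2) ^ SD.Dx x :=
      Nat.le_self_pow (Nat.succ_ne_zero _) _
    have hp : ∀ a b, a ≤ b → (x.length + 2) ^ a ≤ (x.length + 2) ^ b := fun a b h =>
      Nat.pow_le_pow_right (by omega) h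
    have h6 := hp (3 * e) (3 * e + 4) (by omega)
    refine ⟨?_, by omega, h4.trans h6⟩
    have h7 : cd (num x 3) (num x 0) (num x 3) + 1 ≤ (x.length + 2) ^ 2 := by
      have a := nle x 3
      have b := Nat.mul_le_mul (nle x 0) (Nat.add_le_add_right a 1)
      unfold cd
      nlinarith
    have h8 := hp e (3 * e + 2) (by omega)
    have h9 := hp (3 * e) (3 * e + 2) (by omega)
    have h10 := hp 2 (3 * e + 2) (by omega)
    have h11 : 3 * (x.length + 2) ^ (3 * e + 2) ≤ (x.length + 2) ^ (3 * e + 4) := by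
      rw [show 3 * e + 4 = 2 + (3 * e + 2) by ring, pow_add (x.length + 2) 2]
      exact Nat.mul_le_mul_right _ (by nlinarith [Nat.zero_le x.length])
    have h12 : Kz K x ≤ qz K x := Nat.le_add_right _ _
    unfold bz
    omega

end Pool.Agent.MP_1a6d78_lc.DS.PV
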