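import Pool.Agent.MP_1a6d78_lc.PN.Spec

/-! PROJECT PN, row PC: the tests without calls and the sizes are computable. -/

namespace Pool.Agent.MP_1a6d78_lc.DS.PV

open Classical ED PR DD SC SD

namespace PcL

variable {κ : List Bool → ℕ}

theorem cdC {θ u j : List Bool → Env → ℕ} (hθ : Cn κ θ) (hu : Cn κ u) (hj : Cn κ j) :
    Cn κ fun x ρ => cd (θ x ρ) (u x ρ) (j x ρ) :=
  K.add (K.c 1) (K.add (K.mul hu (K.add hθ (K.c 1))) hj)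

theorem hasC {θ o u j : List Bool → Env → ℕ} {S : List Bool → Env → List ℕ} (hθ : Cn κ θ)
    (hS : Cm κ S) (ho : Cn κ o) (hu : Cn κ u) (hj : Cn κ j) :
    Cp κ fun x ρ => has (θ x ρ) (S x ρ) (o x ρ) (u x ρ) (j x ρ) :=
  K.ex (P := fun x ρ i => gt (S x ρ) (5 + i) = cd (θ x ρ) (u x ρ) (j x ρ)) ho
    (K.eq (K.gt (K.wL hS) (K.add (K.c 5) (K.v 0))) (K.w (cdC hθ hu hj)))

theorem zc : ZcK := by
  intro K0 κ
  obtain ⟨-, cW, -, cN, cθ, ck, cD⟩ := kt1.pi K0 κ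
  have hz : Cn κ fun x _ => Kz K0 x := K.add (K.c 5) (K.mul cD (K.mul cN (K.add cθ (K.c 1))))
  have n0 : Cn κ fun x _ => num x 0 := K.app (f := fun x _ => num x) (pi1.num κ) (K.c 0)
  have n3 : Cn κ fun x _ => num x 3 := K.app (f := fun x _ => num x) (pi1.num κ) (K.c 3)
  exact ⟨hz, K.add (K.add (K.add (kt1.bt K0 κ) hz) (cdC n3 n0 n3)) (K.c 1),
    K.add hz (K.add (K.add (K.add (K.add cN cθ) cW) ck) (K.c 5))⟩

theorem pkC {k b : List Bool → ℕ} {u j o l a : List Bool → Env → ℕ}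
    {S : List Bool → Env → List ℕ} (hk : ∀ x, k x ≤ κ x) (ck : Cn κ fun x _ => k x)
    (cb : Cn κ fun x _ => b x) (hS : Cm κ S) (hu : Cn κ u) (hj : Cn κ j) (ho : Cn κ o)
    (hl : Cn κ l) (ha : Cn κ a) : Cm κ fun x ρ =>
      pack (k x) (b x) (S x ρ) (u x ρ) (j x ρ) (o x ρ) (l x ρ) (a x ρ) :=
  (kitOne κ).tab (fun x ρ e => min (b x) (if e = 0 then u x ρ else if e = 1 then j x ρ
      else if e = 2 then o x ρ else if e = 3 then l x ρ else if e = 4 then a x ρ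
      else gt (S x ρ) e)) hk ck
    (K.min cb (K.ite (K.eq (K.v 0) (K.c 0)) (K.w hu)
      (K.ite (K.eq (K.v 0) (K.c 1)) (K.w hj) (K.ite (K.eq (K.v 0) (K.c 2)) (K.w ho)
        (K.ite (K.eq (K.v 0) (K.c 3)) (K.w hl) (K.ite (K.eq (K.v 0) (K.c 4)) (K.w ha)
          (K.gt (K.wL hS) (K.v 0))))))))

variable {G : List Bool → Ge} (g : GeC κ fun x _ => G x) {a l d u : List Bool → Env → ℕ}
include g

theorem cn : Cn κ fun x _ => (G x).n :=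
  RgCL.nC (G := fun x _ => G x) (p := fun _ _ => 0) g (K.c 0)

theorem nd (hd : Cn κ d) : Cn κ fun x ρ => (G x).nd (d x ρ) := g.nd (fun _ _ => 0) d (K.c 0) hd

theorem be (hd : Cn κ d) : Cn κ fun x ρ => (G x).β (d x ρ) := g.β (fun _ _ => 0) d (K.c 0) hd

theorem wt (hd : Cn κ d) : Cn κ fun x ρ => (G x).w (d x ρ) := g.w (fun _ _ => 0) d (K.c 0) hd

theorem ar (hd : Cn κ d) : Cp κ fun x ρ => (G x).ar (d x ρ) := g.ar (fun _ _ => 0) d (K.c 0) hd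

variable {Λ : List Bool → Pa} (hk : ∀ x, (Λ x).K ≤ κ x) (ck : Cn κ fun x _ => (Λ x).K)
include hk ck

theorem U (ha : Cn κ a) (hl : Cn κ l) (hd : Cn κ d) :
    Cp κ fun x ρ => (G x).U (Λ x).K (a x ρ) (l x ρ) (d x ρ) :=
  RgCL.UC (G := fun x _ => G x) (p := fun _ _ => 0) (k := fun x => (Λ x).K) g (K.c 0) hk ck ha hl hd

theorem inn (ha : Cn κ a) (hl : Cn κ l) (hu : Cn κ u) :
    Cp κ fun x ρ => Inn (G x) (Λ x) (a x ρ) (l x ρ) (u x ρ) :=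
  K.all (P := fun x ρ d => (G x).ar d → (G x).nd d = u x ρ →
      (G x).U (Λ x).K (a x ρ) (l x ρ) d) (cn g)
    (K.imp (ar g (K.v 0)) (K.imp (K.eq (nd g (K.v 0)) (K.w hu))
      (U g hk ck (K.w ha) (K.w hl) (K.v 0))))

theorem b2 (ha : Cn κ a) (hl : Cn κ l) (hu : Cn κ u) :
    Cp κ fun x ρ => B2 (G x) (Λ x) (a x ρ) (l x ρ) (u x ρ) :=
  K.ex (P := fun x ρ d => (G x).U (Λ x).K (a x ρ) (l x ρ) d ∧ (G x).nd ((G x).β d) = u x ρ) (cn g)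
    (K.and (U g hk ck (K.w ha) (K.w hl) (K.v 0)) (K.eq (nd g (be g (K.v 0))) (K.w hu)))

theorem ch {o j : List Bool → Env → ℕ} {S : List Bool → Env → List ℕ}
    (cθ : Cn κ fun x _ => (Λ x).θ) (ha : Cn κ a) (hl : Cn κ l) (hS : Cm κ S) (ho : Cn κ o)
    (hu : Cn κ u) (hj : Cn κ j) :
    Cp κ fun x ρ => ch0 (G x) (Λ x) (a x ρ) (l x ρ) (S x ρ) (o x ρ) (u x ρ) (j x ρ) :=
  K.ex (P := fun x ρ d => ((G x).ar d ∧ (G x).U (Λ x).K (a x ρ) (l x ρ) d) ∧ (G x).nd d = u x ρ ∧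
      (has (Λ x).θ (S x ρ) (o x ρ) ((G x).nd ((G x).β d)) (j x ρ) ↔
        ((G x).w d = 1 ∨ (G x).w d = 4))) (cn g)
    (K.and (K.and (ar g (K.v 0)) (U g hk ck (K.w ha) (K.w hl) (K.v 0)))
      (K.and (K.eq (nd g (K.v 0)) (K.w hu))
        (RgCL.iffC (hasC cθ (K.wL hS) (K.w ho) (nd g (be g (K.v 0))) (K.w hj))
          (K.or (K.eq (wt g (K.v 0)) (K.c 1)) (K.eq (wt g (K.v 0)) (K.c 4))))))

end PcL

theorem pcS : PcS := by
  refine ⟨PcL.zc, fun K0 κ G hq g => ?_⟩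
  obtain ⟨-, -, -, -, cθ, ck, -⟩ := kt1.pi K0 κ
  have hk : ∀ x, (pa K0 x).K ≤ κ x := fun x =>
    (((Nat.le_add_left _ _).trans (Nat.le_add_right _ 5)).trans (Nat.le_add_left _ _)).trans (hq x)
  have hz : ∀ x, Kz K0 x ≤ κ x := fun x => (Nat.le_add_right _ _).trans (hq x)
  exact ⟨fun _ _ _ ha hl hu => PcL.inn (Λ := pa K0) g hk ck ha hl hu,
    fun _ _ _ ha hl hu => PcL.b2 (Λ := pa K0) g hk ck ha hl hu,
    fun _ _ _ _ _ _ ha hl hS ho hu hj => PcL.ch (Λ := pa K0) g hk ck cθ ha hl hS ho hu hj,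
    fun _ _ _ _ _ _ hS hu hj ho hl ha =>
      PcL.pkC hz (PcL.zc K0 κ).1 (PcL.zc K0 κ).2.1 hS hu hj ho hl ha⟩

end Pool.Agent.MP_1a6d78_lc.DS.PV
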