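import Pool.Agent.MP_1a6d78_lc.PN.Spec

/-! PROJECT PN, row REC: the recursion over the regions computes `hit`. -/

namespace Pool.Agent.MP_1a6d78_lc.DS.PV

open Classical ED PR DD SC SD

namespace RvL

theorem gt_pack {Kl e : ℕ} (b : ℕ) (S : List ℕ) (u j o l a : ℕ) (h : e < Kl) :
    gt (pack Kl b S u j o l a) e = min b (if e = 0 then u else if e = 1 then j else
      if e = 2 then o else if e = 3 then l else if e = 4 then a else gt S e) := by
  simp [pack, gt, tab, List.getD_eq_getElem?_getD, h]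

theorem has_pack {θ Kl b n : ℕ} (S : List ℕ) (u j o' l a : ℕ) {o y i : ℕ} (hb : cd θ n θ < b)
    (hy : y ≤ n) (hi : i ≤ θ) (ho : 5 + o ≤ Kl) :
    has θ (pack Kl b S u j o' l a) o y i ↔ has θ S o y i := by
  have h1 : cd θ y i < b := by
    have := Nat.mul_le_mul_right (θ + 1) hy
    unfold cd at hb ⊢
    omega
  refine exists_congr fun t => and_congr_right fun ht => ?_
  rw [gt_pack b S u j o' l a (by omega), if_neg (by omega), if_neg (by omega), if_neg (by omega),
    if_neg (by omega), if_neg (by omega)]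
  omega

theorem succ (G : Ge) (Λ : Pa) (a l u j : ℕ) (h : Inn G Λ a l u) :
    eG G (j + 1) u ↔ ¬(3 ≤ G.w u ↔ hit G Λ a l u j) := by
  refine not_congr (iff_congr Iff.rfl (exists_congr fun d => and_congr_right fun hd => ?_))
  exact ⟨fun ⟨h1, h2, h3⟩ => ⟨⟨h1, h d hd h1 h2⟩, h2, h3⟩, fun ⟨h1, h2, h3⟩ => ⟨h1.1, h2, h3⟩⟩

theorem ite_ne (p : Prop) [Decidable p] : (if p then 1 else 0 : ℕ) ≠ 0 ↔ p := by
  split_ifs with h <;> simp [h]

end RvL

open RvL in
theorem rvS : RvS := by
  intro fl G Λ Kl b se hn nb Kb cb pb D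
  induction D with
  | zero =>
    intro L _ h2 h3
    omega
  | succ D ih =>
    intro L h1 h2 h3 h4 h5 h6 h7 h8
    have e0 : rc (Fp G Λ Kl b) (D + 1) L = Fp G Λ Kl b (rc (Fp G Λ Kl b) D) L := rfl
    rw [e0, Fp, min_eq_right h6]
    generalize gt L 0 = v at *
    generalize gt L 1 = k at *
    generalize gt L 2 = o at *
    generalize gt L 3 = l at *
    generalize gt L 4 = a at *
    have m1 : Λ.N * (k + 1) ≤ Λ.N * (Λ.θ + 1) := Nat.mul_le_mul_left _ (by omega)
    rw [Nat.succ_mul D (Λ.N * (Λ.θ + 1))] at h4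
    rw [Nat.succ_mul D Λ.i] at h3
    have m2 : 5 + (o + Λ.N * (k + 1)) ≤ Kl := by omega
    have z0 : ∀ u, ¬eG G 0 u := fun _ h => h
    by_cases hl : Λ.Lm ≤ l
    · rw [if_pos hl, ite_ne]
      refine fl G.n Λ.N Λ.θ Kl _ _ _ _ (eG G) (fun u j => hit G Λ a l u j) L o v k
        (se.c2 a l hl h2) se.pos h6 h5 m2 z0 (fun u j => succ G Λ a l u j) h7 ?_
      intro S o' u j _ hj _ hS old new
      refine exists_congr fun d => and_congr_right fun hd => and_congr_right fun ha =>
        and_congr_right fun _ => iff_congr ⟨hS _ (hn d hd).le j (by omega), fun he => ?_⟩ Iff.rfl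
      rcases h8 d hd ha with c | c
      · exact new _ (hn d hd) ⟨d, hd, ha.2, rfl⟩ c j le_rfl he
      · exact old _ _ (c j hj he)
    · have hl' : l < Λ.Lm := not_le.1 hl
      have p1 := pb l hl'
      have p2 : 2 ^ l ≤ b := (Nat.pow_le_pow_right (by norm_num) (Nat.le_add_right _ _)).trans p1
      have p3 : l + Λ.i < 2 ^ (l + Λ.i) := Nat.lt_two_pow_self
      have p4 : Λ.θ ≤ b := by
        unfold cd at cb
        omega
      rw [if_neg hl, ite_ne, min_eq_right p2]
      refine fl G.n Λ.N Λ.θ Kl _ _ _ _ (eG G) (fun u j => hit G Λ a l u j) L o v k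
        (se.c1 a l _) se.pos h6 h5 m2 z0 (fun u j => succ G Λ a l u j) h7 ?_
      intro S o' u j hu hj ho hS old new
      have key : ∀ w < Λ.W, (rc (Fp G Λ Kl b) D (pack Kl b S u j o' (l + Λ.i) (a + w * 2 ^ l)) ≠ 0 ↔
          hit G Λ (a + w * 2 ^ l) (l + Λ.i) u j) := by
        intro w hw
        have q := se.lt a l w h1 hw
        have ih' := ih (pack Kl b S u j o' (l + Λ.i) (a + w * 2 ^ l))
        have g0 : gt (pack Kl b S u j o' (l + Λ.i) (a + w * 2 ^ l)) 0 = u := by
          rw [gt_pack _ _ _ _ _ _ _ (by omega), if_pos rfl]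
          omega
        have g1 : gt (pack Kl b S u j o' (l + Λ.i) (a + w * 2 ^ l)) 1 = j := by
          rw [gt_pack _ _ _ _ _ _ _ (by omega), if_neg (by omega), if_pos rfl]
          omega
        have g2 : gt (pack Kl b S u j o' (l + Λ.i) (a + w * 2 ^ l)) 2 = o' := by
          rw [gt_pack _ _ _ _ _ _ _ (by omega), if_neg (by omega), if_neg (by omega), if_pos rfl]
          omega
        have g3 : gt (pack Kl b S u j o' (l + Λ.i) (a + w * 2 ^ l)) 3 = l + Λ.i := by
          rw [gt_pack _ _ _ _ _ _ _ (by omega), if_neg (by omega), if_neg (by omega),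
            if_neg (by omega), if_pos rfl]
          omega
        have g4 : gt (pack Kl b S u j o' (l + Λ.i) (a + w * 2 ^ l)) 4 = a + w * 2 ^ l := by
          rw [gt_pack _ _ _ _ _ _ _ (by omega), if_neg (by omega), if_neg (by omega),
            if_neg (by omega), if_neg (by omega), if_pos rfl]
          omega
        rw [g0, g1, g2, g3, g4] at ih'
        have hp : ∀ {y i : ℕ}, y ≤ G.n → i ≤ Λ.θ →
            (has Λ.θ (pack Kl b S u j o' (l + Λ.i) (a + w * 2 ^ l)) o' y i ↔ has Λ.θ S o' y i) :=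
          fun hy hi => has_pack S u j o' _ _ cb hy hi (by omega)
        refine ih' q (by omega) (by omega) (by omega) hu (by omega)
          (fun y hy i hi h => hS y hy i hi ((hp hy hi).1 h)) fun d hd ha => ?_
        rcases h8 d hd ⟨ha.1, se.sub a l w d h1 hl' ha.2⟩ with c | c
        · rcases se.sep a l w h1 hl' hw d hd ha c with c' | c'
          · exact Or.inl c'
          · exact Or.inr fun i hi he =>
              (hp (hn d hd).le (by omega)).2 (new _ (hn d hd) c' c i hi he)
        · exact Or.inr fun i hi he => (hp (hn d hd).le (by omega)).2 (old _ _ (c i (by omega) he))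
      constructor
      · rintro ⟨w, hw, h⟩
        obtain ⟨d, hd, ha, h'⟩ := (key w hw).1 h
        exact ⟨d, hd, ⟨ha.1, se.sub a l w d h1 hl' ha.2⟩, h'⟩
      · rintro ⟨d, hd, ha, h'⟩
        obtain ⟨w, hw, h⟩ := se.cov a l d h1 hl' ha.2
        exact ⟨w, hw, (key w hw).2 ⟨d, hd, ⟨ha.1, h⟩, h'⟩⟩

end Pool.Agent.MP_1a6d78_lc.DS.PV
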