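import Pool.Agent.MP_1a6d78_lc.PN.Spec

/-! PROJECT PN, row SEP: the regions. -/

namespace Pool.Agent.MP_1a6d78_lc.DS.PV

open Classical ED PR DD SC SD RcL

theorem seS : SeS := by
  intro G Λ H ok pk
  have R := rgS G Λ.K
  have hK := pk.K
  have k3 : 2 ^ 2 ≤ Λ.W := by rw [pk.W]; exact Nat.pow_le_pow_right (by norm_num) pk.i
  have k4 : 2 ^ 2 * 2 * 2 ≤ Λ.W * Λ.i * (2 * (2 * H + 1)) :=
    Nat.mul_le_mul (Nat.mul_le_mul k3 pk.i) (by omega)
  have k5 := pk.N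
  refine ⟨R.zero 0, by omega, fun a l h1 h2 => ?_, fun a l e => (cnt_B1 Λ ok a l e).trans k5,
    fun a l w ha hw => child ha (pk.W ▸ hw),
    fun a l w d ha hl q => ((R.pre a w l Λ.i ha (by omega) d).1 q).1, fun a l d ha hl q => ?_,
    fun a l j ha hl hj d hd q p => ?_⟩
  · obtain ⟨L, hL, eL⟩ := pk.Lm
    have k1 := (szS spS G H Λ.K ok R a l (by omega)).2 L hL (by omega)
    have k2 : cnt G.n (B2 G Λ a l) ≤ _ := cnt_img G.n (G.U Λ.K a l) fun d => G.nd (G.β d)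
    omega
  · obtain ⟨w, hw, q⟩ := R.cov a l Λ.i ha (by omega) d q
    exact ⟨w, pk.W ▸ hw, q⟩
  · have lK : l + Λ.i ≤ Λ.K := by omega
    refine or_iff_not_imp_left.2 fun n => ?_
    obtain ⟨d', hd', ar, e, k⟩ : ∃ d' < G.n, G.ar d' ∧ G.nd d' = G.nd (G.β d) ∧
        ¬G.U Λ.K (a + j * 2 ^ l) (l + Λ.i) d' := by
      by_contra c
      exact n fun d' h1 h2 h3 => by_contra fun h4 => c ⟨d', h1, h2, h3, h4⟩
    rw [R.pre a j l Λ.i ha lK d', not_and, not_forall₂] at k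
    obtain ⟨h, hh, k⟩ := k (p d' hd' ar e)
    refine ⟨j, hj, h, hh, ?_⟩
    rcases (ok.ar d hd q.1).2 with t | t
    · refine sep hd' hd e (Or.inr (by rw [t])) fun s => k (s.trans ?_)
      exact ((R.pre a j l Λ.i ha lK d).1 q.2).2 h hh
    · refine sep hd' (ok.iv d hd).1 e (Or.inl (by rw [t])) fun s => k (s.trans ?_)
      exact ((R.pre a j l Λ.i ha lK _).1 ((szS spS G H Λ.K ok R _ _ lK).1 d hd q.2)).2 h hh

end Pool.Agent.MP_1a6d78_lc.DS.PV
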