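import Pool.Agent.MP_1a6d78_lc.SD.All
import Pool.Agent.MP_1a6d78_lc.PN.Defs

/-! PROJECT PN: plane Boolean networks of small depth in polynomial time and small space.  The
algorithm and the statements of the rows. -/

namespace Pool.Agent.MP_1a6d78_lc.DS.PV

open Classical ED PR DD SC SD

noncomputable section

theorem pi1 : PiK 1 := piS roS fmC 1 le_rfl

theorem kt1 : KtK := ktS pi1

theorem frQ (K : ℕ) : Ev (fun x => lg x ^ 2) fun κ => (∀ x, qx K x ≤ κ x) →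
    Nq κ (qx K) (bt K) fun x g ρ => Fr K x g (ρ 0) :=
  (chS GM.recC elS pi1 kt1 q1S q2S K).imp fun κ _ a b =>
    fqS kt1 bqS K κ b (gcS pi1 kt1 K κ a) (rgCS kt1 K κ _
      (fun x => le_trans (by unfold qx; omega) (b x)) (gcS pi1 kt1 K κ a))

theorem runA : RunK := runK twK baseS ndS slS thS shS dpS

/-! ### Part 1: the tree of short walks -/

section
variable (M : Mp) (θ : ℕ) (D : ℕ → ℕ)

def par (v : ℕ) : ℕ := lst M.n fun a => M.nd (M.β a) = v ∧ D (M.nd a) < D v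

/-- The dart `a` leads from the father to the son. -/
def isP (a : ℕ) : Prop :=
  a < M.n ∧ D (M.nd (M.β a)) ≤ θ ∧ D (M.nd a) < D (M.nd (M.β a)) ∧ par M D (M.nd (M.β a)) = a

def bfs : St where
  A _ := False
  tr d := d < M.n ∧ (isP M θ D d ∨ isP M θ D (M.β d))
  mr _ := False
  nx d := d
  dep _ := 0

end

/-- TREE -/
def TrS : Prop := ∀ (M : Mp) θ D, M.Ok → Sh M (bfs M θ D)

/-- DEEP -/
def DqS : Prop := ∀ (M : Mp) θ D, M.Ok → Dp M θ 1 (bfs M θ D)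

/-- `D` is the distance from `s` below `θ`. -/
def ExK (M : Mp) (us : ℕ → Prop) (w : ℕ → ℕ) (s θ : ℕ) (D : ℕ → ℕ) : Prop :=
  ∀ t < M.n, (D (M.nd t) ≤ θ → Dw M us w s t (D (M.nd t))) ∧
    ∀ c ≤ θ, Dw M us w s t c → D (M.nd t) ≤ c

structure DsK (M : Mp) (us : ℕ → Prop) (w : ℕ → ℕ) (s θ : ℕ) (D : ℕ → ℕ) : Prop where
  zero : D (M.nd s) = 0
  step : ∀ d < M.n, us d → D (M.nd d) + w d ≤ θ → D (M.nd (M.β d)) ≤ D (M.nd d) + w d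
  par : ∀ t < M.n, D (M.nd t) ≤ θ → M.nd t = M.nd s ∨
    ∃ a < M.n, M.nd (M.β a) = M.nd t ∧ D (M.nd a) < D (M.nd t)

/-- DS -/
def DsS : Prop :=
  ∀ (M : Mp) (us : ℕ → Prop) (w : ℕ → ℕ) s θ D, M.Ok → s < M.n → (∀ d < M.n, us d → 1 ≤ w d) →
    ExK M us w s θ D → DsK M us w s θ D

def dv (K : ℕ) (x : List Bool) (p v : ℕ) : ℕ :=
  (gx K x p).dr (pa K x) (SD.Dx x) 0 0 (min (num x 0) ((inp x).nd (num x 1))) (min (num x 0) v)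

def Dd (K : ℕ) (x : List Bool) (v : ℕ) : ℕ :=
  mn (bt K x) (fun _ => True) (fun p => dv K x p v) (num x 3 + 1)

/-- EXACT -/
def ExS : Prop :=
  ∀ K x, 40000 ≤ K → (inp x).Ok → posW x →
    ExK (inp x) (us x) (wt x) (num x 1) (num x 3) (Dd K x)

/-- The values after `k` rounds; the wires are the darts with `P`. -/
def eV (n : ℕ) (nd β w : ℕ → ℕ) (P : ℕ → Prop) : ℕ → ℕ → Prop
  | 0 => fun _ => False
  | k + 1 => fun v => ¬(3 ≤ w v ↔ ∃ d < n, P d ∧ nd d = v ∧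
      (eV n nd β w P k (nd (β d)) ↔ (w d = 1 ∨ w d = 4)))

/-- CONE -/
def CnS : Prop :=
  ∀ (M : Mp) (us : ℕ → Prop) (w : ℕ → ℕ) s θ D, s < M.n → DsK M us w s θ D →
    Sh M (bfs M θ D) → (∀ d < M.n, us d → w d ≤ 4) → ∀ k, ∀ t < M.n, D (M.nd t) + 4 * k ≤ θ →
      (eV M.n M.nd M.β w (geo M us w ((bfs M θ D).tau M)).ar k (M.nd t) ↔
        eV M.n M.nd M.β w us k (M.nd t))

def gy (K : ℕ) (x : List Bool) : Ge :=
  geo (inp x) (us x) (wt x) ((bfs (inp x) (num x 3) (Dd K x)).tau (inp x))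

/-! ### Part 2: the recursion with a stack of true facts -/

def cd (θ u j : ℕ) : ℕ := 1 + (u * (θ + 1) + j)

/-- The fact `(u, j)` is among the first `o` entries of the stack. -/
def has (θ : ℕ) (L : List ℕ) (o u j : ℕ) : Prop := ∃ i < o, gt L (5 + i) = cd θ u j

def fill (n N θ Kl : ℕ) (B I T : ℕ → Prop) (ch : List ℕ → ℕ → ℕ → ℕ → Prop) (L : List ℕ)
    (o m : ℕ) : List ℕ :=
  itr (fun t S => El.upd Kl S (5 + (o + t))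
    (if I (sel n B (t % N)) ∧ 1 ≤ t / N ∧
        ¬(T (sel n B (t % N)) ↔ ch S (o + t) (sel n B (t % N)) (t / N - 1))
      then cd θ (sel n B (t % N)) (t / N) else 0)) L m

def frm (n N θ Kl : ℕ) (B I T : ℕ → Prop) (ch : List ℕ → ℕ → ℕ → ℕ → Prop) (L : List ℕ)
    (o v k : ℕ) : Prop :=
  ch (fill n N θ Kl B I T ch L o (N * (k + 1))) (o + N * (k + 1)) v k

def Snd (n θ : ℕ) (e : ℕ → ℕ → Prop) (L : List ℕ) (o : ℕ) : Prop :=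
  ∀ u ≤ n, ∀ j ≤ θ, has θ L o u j → e j u

/-- FILL -/
def FlS : Prop :=
  ∀ (n N θ Kl : ℕ) (B I T : ℕ → Prop) (ch : List ℕ → ℕ → ℕ → ℕ → Prop) (e H : ℕ → ℕ → Prop)
    (L : List ℕ) (o v k : ℕ), cnt n B ≤ N → 0 < N → k ≤ θ → v ≤ n →
    5 + (o + N * (k + 1)) ≤ Kl → (∀ u, ¬e 0 u) →
    (∀ u j, I u → (e (j + 1) u ↔ ¬(T u ↔ H u j))) → Snd n θ e L o →
    (∀ S o' u j, u ≤ n → j ≤ k → o' ≤ o + N * (k + 1) → Snd n θ e S o' →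
      (∀ y i, has θ L o y i → has θ S o' y i) →
      (∀ y < n, B y → I y → ∀ i ≤ j, e i y → has θ S o' y i) → (ch S o' u j ↔ H u j)) →
    (frm n N θ Kl B I T ch L o v k ↔ H v k)

def pack (Kl b : ℕ) (S : List ℕ) (u j o l a : ℕ) : List ℕ :=
  tab Kl fun e => min b (if e = 0 then u else if e = 1 then j else if e = 2 then o
    else if e = 3 then l else if e = 4 then a else gt S e)

section
variable (G : Ge) (Λ : Pa)

def eG : ℕ → ℕ → Prop := eV G.n G.nd G.β G.w G.ar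

/-- All wires of the gate `u` lie in the region. -/
def Inn (a l u : ℕ) : Prop := ∀ d < G.n, G.ar d → G.nd d = u → G.U Λ.K a l d

def hit (a l v k : ℕ) : Prop :=
  ∃ d < G.n, G.arc Λ a l d ∧ G.nd d = v ∧ (eG G k (G.nd (G.β d)) ↔ (G.w d = 1 ∨ G.w d = 4))

def B2 (a l v : ℕ) : Prop := ∃ d < G.n, G.U Λ.K a l d ∧ G.nd (G.β d) = v

def ch0 (a l : ℕ) (S : List ℕ) (o u j : ℕ) : Prop :=
  ∃ d < G.n, G.arc Λ a l d ∧ G.nd d = u ∧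
    (has Λ.θ S o (G.nd (G.β d)) j ↔ (G.w d = 1 ∨ G.w d = 4))

def ch1 (Kl b : ℕ) (g : Orc) (a l e : ℕ) (S : List ℕ) (o u j : ℕ) : Prop :=
  ∃ w < Λ.W, g (pack Kl b S u j o (l + Λ.i) (a + w * e)) ≠ 0

/-- One frame; the list holds the gate, the round, the height of the stack, the depth and the
address of the region, then the stack. -/
def Fp (Kl b : ℕ) (g : Orc) (L : List ℕ) : ℕ :=
  if Λ.Lm ≤ gt L 3 then
    (if frm G.n Λ.N Λ.θ Kl (B2 G Λ (gt L 4) (gt L 3)) (Inn G Λ (gt L 4) (gt L 3))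
      (fun v => 3 ≤ G.w v) (ch0 G Λ (gt L 4) (gt L 3)) L (gt L 2) (gt L 0) (min Λ.θ (gt L 1))
      then 1 else 0)
  else
    (if frm G.n Λ.N Λ.θ Kl (G.B1 Λ (gt L 4) (gt L 3) (min b (2 ^ gt L 3)))
      (Inn G Λ (gt L 4) (gt L 3)) (fun v => 3 ≤ G.w v)
      (ch1 Λ Kl b g (gt L 4) (gt L 3) (min b (2 ^ gt L 3))) L (gt L 2) (gt L 0)
      (min Λ.θ (gt L 1)) then 1 else 0)

def Cov (a l : ℕ) (L : List ℕ) (o k : ℕ) : Prop :=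
  ∀ d < G.n, G.arc Λ a l d → Inn G Λ a l (G.nd (G.β d)) ∨
    ∀ j ≤ k, eG G j (G.nd (G.β d)) → has Λ.θ L o (G.nd (G.β d)) j

/-- SEP: the regions. -/
structure SeK : Prop where
  top : ∀ d, G.U Λ.K 0 0 d
  pos : 0 < Λ.N
  c2 : ∀ a l, Λ.Lm ≤ l → l < Λ.Lm + Λ.i → cnt G.n (B2 G Λ a l) ≤ Λ.N
  c1 : ∀ a l e, cnt G.n (G.B1 Λ a l e) ≤ Λ.N
  lt : ∀ a l w, a < 2 ^ l → w < Λ.W → a + w * 2 ^ l < 2 ^ (l + Λ.i)
  sub : ∀ a l w d, a < 2 ^ l → l < Λ.Lm → G.U Λ.K (a + w * 2 ^ l) (l + Λ.i) d → G.U Λ.K a l d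
  cov : ∀ a l d, a < 2 ^ l → l < Λ.Lm → G.U Λ.K a l d →
    ∃ w < Λ.W, G.U Λ.K (a + w * 2 ^ l) (l + Λ.i) d
  sep : ∀ a l w, a < 2 ^ l → l < Λ.Lm → w < Λ.W → ∀ d < G.n,
    G.arc Λ (a + w * 2 ^ l) (l + Λ.i) d → Inn G Λ a l (G.nd (G.β d)) →
      Inn G Λ (a + w * 2 ^ l) (l + Λ.i) (G.nd (G.β d)) ∨ G.B1 Λ a l (2 ^ l) (G.nd (G.β d))

end

def SeS : Prop := ∀ (G : Ge) (Λ : Pa) H, G.Ok H → Λ.Ok G.n H → SeK G Λ

/-- REC -/
def RvS : Prop :=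
  FlS → ∀ (G : Ge) (Λ : Pa) (Kl b : ℕ), SeK G Λ → (∀ d < G.n, G.nd (G.β d) < G.n) → G.n ≤ b →
    Kl ≤ b → cd Λ.θ G.n Λ.θ < b → (∀ l < Λ.Lm, 2 ^ (l + Λ.i) ≤ b) → ∀ (D : ℕ) (L : List ℕ),
      gt L 4 < 2 ^ gt L 3 → gt L 3 < Λ.Lm + Λ.i → Λ.Lm + Λ.i < gt L 3 + D * Λ.i + 1 →
      5 + (gt L 2 + D * (Λ.N * (Λ.θ + 1))) ≤ Kl → gt L 0 ≤ G.n → gt L 1 ≤ Λ.θ →
      Snd G.n Λ.θ (eG G) L (gt L 2) → Cov G Λ (gt L 4) (gt L 3) L (gt L 2) (gt L 1) →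
        (rc (Fp G Λ Kl b) D L ≠ 0 ↔ hit G Λ (gt L 4) (gt L 3) (gt L 0) (gt L 1))

/-! ### The top -/

section
variable (K : ℕ) (x : List Bool)

def Kz : ℕ := 5 + SD.Dx x * ((pa K x).N * ((pa K x).θ + 1))

def bz : ℕ := bt K x + Kz K x + cd (num x 3) (num x 0) (num x 3) + 1

def qz : ℕ := Kz K x + qx K x

def an (k : ℕ) : ℕ :=
  if 1 ≤ num x 3 / 4 ∧ ¬(3 ≤ wt x (min (num x 0) ((inp x).nd (num x 1))) ↔
    rc (Fp (gy K x) (pa K x) (Kz K x) (bz K x)) (SD.Dx x) (GM.clip k (bz K x)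
      [min (num x 0) ((inp x).nd (num x 1)), num x 3 / 4 - 1]) ≠ 0) then 1 else 0

end

/-- TOP -/
def TzS : Prop :=
  TrS → DqS → DsS → ExS → CnS → SeS → FlS → RvS → ∀ K x k, 40000 ≤ K → 5 ≤ k → (inp x).Ok →
    (∀ d < num x 0, us x d → 1 ≤ wt x d ∧ wt x d ≤ 4) →
      (an K x k ≠ 0 ↔ eV (num x 0) (inp x).nd (inp x).β (wt x) (us x) (num x 3 / 4)
        ((inp x).nd (num x 1)))

/-- CODE -/
def CdS : Prop :=
  ∀ {n : ℕ} (σ α : Equiv.Perm (Fin n)) (dir ty neg : Fin n → Bool) (s : Fin n) (d : ℕ)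
    (x : List Bool), α * α = 1 → Planar σ α → (∀ a, ty (σ a) = ty a) →
    x = PN.code σ α dir ty neg s d → ∀ (k : ℕ) (a : Fin n),
      eV (num x 0) (inp x).nd (inp x).β (wt x) (us x) k ((inp x).nd a) ↔
        PN.ev σ α dir ty neg k a

/-! ### Computability -/

/-- DISTC -/
def DcS : Prop := ∀ K, Ev (fun x => mx x ^ 36) fun κ => F1 κ fun x _ => Dd K x

/-- TREEC -/
def GyS : Prop := ∀ K κ, (F1 κ fun x _ => Dd K x) → GeC κ fun x _ => gy K x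

/-- FILLQ -/
def FcS : Prop :=
  ∀ (κ q β n N θ Kl : List Bool → ℕ) (B I T : List Bool → Env → ℕ → Prop)
    (ch : List Bool → Orc → Env → List ℕ → ℕ → ℕ → ℕ → Prop) (L : List Bool → Env → List ℕ)
    (o v k : List Bool → Env → ℕ), (∀ x, Kl x ≤ κ x ∧ Kl x ≤ q x) →
    (∀ x ρ, N x * (k x ρ + 1) ≤ q x) → (Cn κ fun x _ => n x) → (Cn κ fun x _ => N x) →
    (Cn κ fun x _ => θ x) → (Cn κ fun x _ => Kl x) → P1 κ B → P1 κ I → P1 κ T →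
    (Pq κ q β fun x g ρ =>
      ch x g (tl (tl (tl (tl ρ)))) (ρ 3) (hd (ρ 2)) (hd (ρ 1)) (hd (ρ 0))) →
    Cm κ L → Cn κ o → Cn κ v → Cn κ k →
      Pq κ q β fun x g ρ => frm (n x) (N x) (θ x) (Kl x) (B x ρ) (I x ρ) (T x ρ) (ch x g ρ)
        (L x ρ) (o x ρ) (v x ρ) (k x ρ)

/-- PC: the tests without calls. -/
structure PcK (K : ℕ) (κ : List Bool → ℕ) (G : List Bool → Ge) : Prop where
  inn : ∀ a l u : List Bool → Env → ℕ, Cn κ a → Cn κ l → Cn κ u →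
    Cp κ fun x ρ => Inn (G x) (pa K x) (a x ρ) (l x ρ) (u x ρ)
  b2 : ∀ a l u : List Bool → Env → ℕ, Cn κ a → Cn κ l → Cn κ u →
    Cp κ fun x ρ => B2 (G x) (pa K x) (a x ρ) (l x ρ) (u x ρ)
  ch : ∀ (a l o u j : List Bool → Env → ℕ) (S : List Bool → Env → List ℕ), Cn κ a → Cn κ l →
    Cm κ S → Cn κ o → Cn κ u → Cn κ j →
      Cp κ fun x ρ => ch0 (G x) (pa K x) (a x ρ) (l x ρ) (S x ρ) (o x ρ) (u x ρ) (j x ρ)
  pk : ∀ (u j o l a : List Bool → Env → ℕ) (S : List Bool → Env → List ℕ), Cm κ S → Cn κ u →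
    Cn κ j → Cn κ o → Cn κ l → Cn κ a → Cm κ fun x ρ =>
      pack (Kz K x) (bz K x) (S x ρ) (u x ρ) (j x ρ) (o x ρ) (l x ρ) (a x ρ)

/-- The sizes are computable. -/
def ZcK : Prop :=
  ∀ K κ, (Cn κ fun x _ => Kz K x) ∧ (Cn κ fun x _ => bz K x) ∧ Cn κ fun x _ => qz K x

def PcS : Prop :=
  ZcK ∧ ∀ K κ (G : List Bool → Ge), (∀ x, qz K x ≤ κ x) → (GeC κ fun x _ => G x) → PcK K κ G

/-- FRAMEQ -/
def FpS : Prop :=
  FcS → ZcK → ∀ K κ (G : List Bool → Ge), (∀ x, qz K x ≤ κ x) → (GeC κ fun x _ => G x) →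
    PcK K κ G → Nq κ (qz K) (bz K) fun x g ρ => Fp (G x) (pa K x) (Kz K x) (bz K x) g (ρ 0)

/-- NUM -/
def NzS : Prop :=
  ∀ K, (∃ c, ∀ x, qz K x ≤ c * mx x ^ 37) ∧
    ∃ e, ∀ x, bz K x ≤ (x.length + 2) ^ e ∧ qz K x ≤ (x.length + 2) ^ e ∧
      (qz K x + 2) ^ SD.Dx x ≤ (x.length + 2) ^ e

/-- TOPC -/
def AnS : Prop :=
  NzS → ZcK → ∀ K, (Ev (fun x => mx x ^ 36) fun κ => (∀ x, qz K x ≤ κ x) →
    Nq κ (qz K) (bz K) fun x g ρ => Fp (gy K x) (pa K x) (Kz K x) (bz K x) g (ρ 0)) →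
    ∃ k : List Bool → ℕ, (∀ x, 5 ≤ k x) ∧
      Ev (fun x => mx x ^ 38) fun κ => Cn κ fun x _ => an K x (k x)

/-- MACH -/
def MzS : Prop :=
  ∀ f : List Bool → ℕ, (Ev (fun x => mx x ^ 38) fun κ => Cn κ fun x _ => f x) →
    ∃ (M : TM) (c : ℕ), ∀ x : List Bool,
      M.out (M.run x ((x.length + 2) ^ c)).q = some (f x != 0) ∧
      ∀ d, num x 3 = 4 * d → ∀ t i, (M.run x t).head i ≤ (d + Nat.log 2 x.length + 2) ^ c

/-- The theorem. -/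
def MainS : Prop :=
  ∃ (M : TM) (c : ℕ), ∀ x : List Bool, ∃ r : Bool,
    M.out (M.run x ((x.length + 2) ^ c)).q = some r ∧
    ∀ (n : ℕ) (σ α : Equiv.Perm (Fin n)) (dir ty neg : Fin n → Bool) (s : Fin n) (d : ℕ),
      α * α = 1 → Planar σ α → (∀ a, ty (σ a) = ty a) → x = PN.code σ α dir ty neg s d →
        (r = true ↔ PN.ev σ α dir ty neg d s) ∧
        ∀ τ i, (M.run x τ).head i ≤ (d + Nat.log 2 x.length + 2) ^ c

theorem mainS (tr : TrS) (dq : DqS) (ds : DsS) (ex : ExS) (cn : CnS) (se : SeS) (fl : FlS)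
    (rv : RvS) (tz : TzS) (cd' : CdS) (dc : DcS) (gy' : GyS) (fc : FcS) (pc : PcS) (fp : FpS)
    (nz : NzS) (an' : AnS) (mz : MzS) : MainS := by
  obtain ⟨K, hK⟩ : ∃ K : ℕ, 40000 ≤ K := ⟨_, le_rfl⟩
  obtain ⟨k, k5, hk⟩ := an' nz pc.1 K ((dc K).imp fun κ _ a b =>
    fp fc pc.1 K κ _ b (gy' K κ a) (pc.2 K κ _ b (gy' K κ a)))
  obtain ⟨M, c, hM⟩ := mz _ hk
  refine ⟨M, c, fun x => ⟨_, (hM x).1, fun n σ α dir ty neg s d hα hp ht hx => ?_⟩⟩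
  obtain ⟨c1, -, c3, c4, -, c6, c7, -⟩ := codS σ α dir _ s s (4 * d) x hα hp hx
  refine ⟨?_, (hM x).2 d c6⟩
  rw [bne_iff_ne, tz tr dq ds ex cn se fl rv K x (k x) hK (k5 x) c1 fun a ha _ => ?_, c6, c4,
    Nat.mul_div_cancel_left d (by norm_num)]
  · exact cd' σ α dir ty neg s d x hα hp ht hx d s
  · have e := (c7 ⟨a, c3 ▸ ha⟩).2.2.1
    have h1 := Bool.toNat_le (neg ⟨a, c3 ▸ ha⟩)
    have h2 := Bool.toNat_le (ty ⟨a, c3 ▸ ha⟩)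
    simp only at e
    omega

end

end Pool.Agent.MP_1a6d78_lc.DS.PV
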