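import Pool.Agent.MP_1a6d78_lc.PN.Spec

/-! PROJECT PN, row TREE: the father darts form a forest. -/

namespace Pool.Agent.MP_1a6d78_lc.DS.PV

open Classical ED PR DD SC SD

noncomputable section

namespace TrL

variable {M : Mp} {θ : ℕ} {D : ℕ → ℕ}

/-- The descendants of `v`. -/
inductive Desc (M : Mp) (θ : ℕ) (D : ℕ → ℕ) (v : ℕ) : ℕ → Prop
  | top : Desc M θ D v v
  | son {p : ℕ} : isP M θ D p → Desc M θ D v (M.nd p) → Desc M θ D v (M.nd (M.β p))

theorem Desc.le {v w : ℕ} (h : Desc M θ D v w) : D v ≤ D w := by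
  induction h with
  | top => exact le_rfl
  | son k _ ih => exact ih.trans k.2.2.1.le

theorem Desc.inv {v w : ℕ} (h : Desc M θ D v w) :
    w = v ∨ ∃ p, isP M θ D p ∧ Desc M θ D v (M.nd p) ∧ M.nd (M.β p) = w := by
  cases h with
  | top => exact Or.inl rfl
  | son k l => exact Or.inr ⟨_, k, l, rfl⟩

theorem uniq {p p' : ℕ} (h : isP M θ D p) (h' : isP M θ D p')
    (e : M.nd (M.β p) = M.nd (M.β p')) : p = p' := by
  rw [← h.2.2.2, e, h'.2.2.2]

theorem edge {a p : ℕ} (ha : isP M θ D a) (hp : isP M θ D p) (ne : p ≠ a) :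
    Desc M θ D (M.nd (M.β a)) (M.nd p) ↔ Desc M θ D (M.nd (M.β a)) (M.nd (M.β p)) := by
  refine ⟨Desc.son hp, fun h => ?_⟩
  rcases h.inv with e | ⟨p', k, l, e⟩
  · exact (ne (uniq hp ha e)).elim
  · exact uniq k hp e ▸ l

theorem tb (h : M.Ok) (d : ℕ) (k : (bfs M θ D).tr d) : (bfs M θ D).tr (M.β d) := by
  obtain ⟨k1, k2⟩ := k
  refine ⟨(h.iv d k1).1, ?_⟩
  rw [(h.iv d k1).2]
  exact k2.symm

theorem iv (h : M.Ok) : Iv M.n ((bfs M θ D).tau M) := by
  intro d hd
  unfold St.tau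
  by_cases k : (bfs M θ D).tr d
  · rw [if_pos k, if_pos (tb h d k)]; exact h.iv d hd
  · rw [if_neg k, if_neg k]; exact ⟨hd, rfl⟩

theorem tau_eq {d : ℕ} (k : (bfs M θ D).tr d) : (bfs M θ D).tau M d = M.β d := if_pos k

theorem cut (h : M.Ok) {a : ℕ} (ha : isP M θ D a) :
    ¬Conn M.n M.ρ (del ((bfs M θ D).tau M) a) a (M.β a) := by
  intro cn
  have ta : (bfs M θ D).tau M a = M.β a := tau_eq ⟨ha.1, Or.inl ha⟩
  have key := Conn.ind (r := fun x y => Desc M θ D (M.nd (M.β a)) (M.nd x) ↔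
      Desc M θ D (M.nd (M.β a)) (M.nd y)) ⟨fun _ => Iff.rfl, Iff.symm, Iff.trans⟩
    (fun d hd => by
      rw [(Mp.nd_iff h.pm hd (h.pm.1 d hd)).2 (Sc.step h.pm.1 hd)])
    (fun d hd => by
      unfold del
      by_cases c : d = a ∨ d = (bfs M θ D).tau M a
      · rw [if_pos c]
      rw [if_neg c]
      by_cases k : (bfs M θ D).tr d
      · rw [tau_eq k]
        rcases k.2 with l | l
        · exact edge ha l fun e => c (Or.inl e)
        · have := edge ha l fun e => c (Or.inr (by rw [ta, ← e, (h.iv d hd).2]))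
          rw [(h.iv d hd).2] at this
          exact this.symm
      · rw [St.tau, if_neg k]) cn
  exact absurd (key.2 Desc.top).le (not_le.2 ha.2.2.1)

theorem one (h : M.Ok) {a : ℕ} (ha : isP M θ D a) :
    Sc M.n (fun d => M.ρ ((bfs M θ D).tau M d)) a (M.β a) := by
  have g := iv (θ := θ) (D := D) h
  have g0 := g.del ha.1
  have ta : (bfs M θ D).tau M a = M.β a := tau_eq ⟨ha.1, Or.inl ha⟩
  have b := (h.iv a ha.1).1
  have p := h.pm.comp g0.pm
  have k := (swapK.merge p ha.1 b (fun s => cut h ha (Sc.conn h.pm g0 ha.1 s)) a ha.1 _ b).2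
    (Or.inr (Or.inl ⟨Sc.refl _ ha.1, Sc.refl _ b⟩))
  exact k.congr (swapK.pm p ha.1 b).1 (fun x _ => by rw [← ta, SDE.del_sw g ha.1]) ha.1

end TrL

theorem trS : TrS := fun M θ D h =>
  { ok := h
    lt := fun _ k => k.elim
    tl := fun _ k => k.1
    ab := fun _ k => k.elim
    tb := TrL.tb h
    fix := fun _ _ => ⟨rfl, rfl⟩
    fr := fun _ _ k => k.elim
    one := fun d hd => by
      by_cases k : (bfs M θ D).tr d
      · rw [TrL.tau_eq k]
        rcases k.2 with l | l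
        · exact TrL.one h l
        · have := TrL.one h l
          rw [(h.iv d hd).2] at this
          exact this.symm (h.pm.comp (TrL.iv h).pm) l.1
      · rw [show (bfs M θ D).tau M d = d from if_neg k]
        exact Sc.refl _ hd }

end

end Pool.Agent.MP_1a6d78_lc.DS.PV
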