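import Pool.Agent.MP_1a6d78_lc.PN.Spec

/-! Row TOP of project PN: the answer of the machine is the value of the root gate. -/

namespace Pool.Agent.MP_1a6d78_lc.DS.PV

open Classical ED PR DD SC SD

namespace TzL

theorem th_le (K : ℕ) (x : List Bool) (hK : 40000 ≤ K) : 1 * num x 3 ≤ K * lg x * SD.rr x := by
  have h1 : 1 ≤ K * lg x := Nat.mul_pos (by omega) (Nat.succ_pos _)
  have h2 : num x 3 ≤ SD.rr x := by
    unfold SD.rr
    exact le_trans (by omega) (Nat.le_self_pow (n := 32) (by omega) (2 * (num x 3 + 1)))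
  exact Nat.mul_le_mul h1 h2

theorem ok_mono {Λ : Pa} {n H H' : ℕ} (h : Λ.Ok n H) (e : H' ≤ H) : Λ.Ok n H' :=
  ⟨h.i, h.W, h.Lm, le_trans (Nat.mul_le_mul_left _ (by omega)) h.N, h.K⟩

theorem pa_ok' (K : ℕ) (x : List Bool) (hK : 40000 ≤ K) :
    (pa K x).Ok (num x 0) (2 * (1 * num x 3)) :=
  ok_mono (TpL.pa_ok K x) (Nat.mul_le_mul_left 2 (th_le K x hK))

theorem bt_le (K : ℕ) (x : List Bool) : bt K x ≤ bz K x := by
  unfold bz
  omega

/-- The value of the first call. -/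
theorem call (hFl : FlS) (hRv : RvS) (K : ℕ) (x : List Bool) (k v m : ℕ) (hk : 5 ≤ k)
    (hM : (inp x).Ok) (se : SeK (gy K x) (pa K x)) (hv : v ≤ num x 0) (hm : m ≤ num x 3) :
    rc (Fp (gy K x) (pa K x) (Kz K x) (bz K x)) (SD.Dx x) (GM.clip k (bz K x) [v, m]) ≠ 0 ↔
      hit (gy K x) (pa K x) 0 0 v m := by
  have n0 := nle x 0
  have n3 := nle x 3
  have hl := RqL.len_le K x
  have hb := bt_le K x
  have g0 : gt (GM.clip k (bz K x) [v, m]) 0 = v :=
    RqL.gt_clip _ (by omega) (show v ≤ _ by omega)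
  have g1 : gt (GM.clip k (bz K x) [v, m]) 1 = m :=
    RqL.gt_clip _ (by omega) (show m ≤ _ by omega)
  have g2 : gt (GM.clip k (bz K x) [v, m]) 2 = 0 :=
    RqL.gt_clip _ (by omega) (Nat.zero_le _)
  have g3 : gt (GM.clip k (bz K x) [v, m]) 3 = 0 :=
    RqL.gt_clip _ (by omega) (Nat.zero_le _)
  have g4 : gt (GM.clip k (bz K x) [v, m]) 4 = 0 :=
    RqL.gt_clip _ (by omega) (Nat.zero_le _)
  have := hRv hFl (gy K x) (pa K x) (Kz K x) (bz K x) se
    (fun d hd => (Mp.nd_spec (M := inp x) (hM.iv d hd).1).1)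
    (show num x 0 ≤ _ by omega) (by unfold bz; omega)
    (show cd (num x 3) (num x 0) (num x 3) < _ by unfold bz; omega)
    (fun l h => (RqL.two_le K x h).trans hb) (SD.Dx x) (GM.clip k (bz K x) [v, m])
  rw [g0, g1, g2, g3, g4] at this
  refine this (by norm_num) (Nat.add_pos_right _ (Nat.succ_pos _)) (TpL.depth K x)
    (by unfold Kz; omega) hv hm ?_ ?_
  · rintro u - j - ⟨i, hi, -⟩
    omega
  · exact fun d _ _ => Or.inl fun e _ _ _ => se.top e

end TzL

theorem tzS : TzS := by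
  intro hTr hDq hDs hEx hCn hSe hFl hRv K x k hK hk hM h
  have hs : num x 1 < num x 0 := hM.s
  have hv : (inp x).nd (num x 1) ≤ num x 0 := (Mp.nd_spec (M := inp x) hs).1.le
  have hw : posW x := fun d hd hu => (h d hd hu).1
  have ds := hDs (inp x) (us x) (wt x) (num x 1) (num x 3) (Dd K x) hM hs hw (hEx K x hK hM hw)
  have sh := hTr (inp x) (num x 3) (Dd K x) hM
  have hG : (gy K x).Ok (2 * (1 * num x 3)) :=
    geS twK ctS cuS _ _ _ _ _ _ sh (ndS _ _ sh) (hDq (inp x) (num x 3) (Dd K x) hM) hw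
  have se := hSe (gy K x) (pa K x) _ hG (TzL.pa_ok' K x hK)
  have cn := hCn (inp x) (us x) (wt x) (num x 1) (num x 3) (Dd K x) hs ds sh
    (fun d hd hu => (h d hd hu).2) (num x 3 / 4) (num x 1) hs (by rw [ds.zero]; omega)
  refine Iff.trans ?_ cn
  unfold an
  rw [min_eq_right hv]
  have hq : num x 3 / 4 ≤ num x 3 := Nat.div_le_self _ _
  generalize num x 3 / 4 = q at hq
  cases q with
  | zero =>
    rw [if_neg fun c => absurd c.1 (by omega)]
    exact ⟨fun c => c rfl, fun c => c.elim⟩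
  | succ m =>
    have c := TzL.call hFl hRv K x k _ m hk hM se hv (by omega)
    have e : hit (gy K x) (pa K x) 0 0 ((inp x).nd (num x 1)) m ↔
        ∃ d < (inp x).n, (gy K x).ar d ∧ (inp x).nd d = (inp x).nd (num x 1) ∧
          (eV (inp x).n (inp x).nd (inp x).β (wt x) (gy K x).ar m ((inp x).nd ((inp x).β d)) ↔
            (wt x d = 1 ∨ wt x d = 4)) :=
      ⟨fun ⟨d, a, b, r⟩ => ⟨d, a, b.1, r⟩, fun ⟨d, a, b, r⟩ => ⟨d, a, ⟨b, se.top d⟩, r⟩⟩
    replace c := c.trans e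
    rw [Nat.add_sub_cancel]
    change _ ↔ ¬(3 ≤ wt x ((inp x).nd (num x 1)) ↔
      ∃ d < (inp x).n, (gy K x).ar d ∧ (inp x).nd d = (inp x).nd (num x 1) ∧
        (eV (inp x).n (inp x).nd (inp x).β (wt x) (gy K x).ar m ((inp x).nd ((inp x).β d)) ↔
          (wt x d = 1 ∨ wt x d = 4)))
    rw [← c]
    split_ifs with t
    · exact ⟨fun _ => t.2, fun _ => one_ne_zero⟩
    · exact ⟨fun c => (c rfl).elim, fun c => (t ⟨by omega, c⟩).elim⟩

end Pool.Agent.MP_1a6d78_lc.DS.PV
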